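import Pool.Agent.C4K.StDet

/-! PIM: the new class is a partial injection, monotonicity, defects. -/

set_option autoImplicit false

namespace Pool.Agent.C4K.H58

open Finset Cl
open scoped Classical

variable {V : Type} {C : Cl V} {T : ℕ}

theorem has_n (w : C.Wk T) {i : ℕ} (hi : i ≤ T) : w.has (w.n i) := ⟨i, hi, rfl⟩

theorem n_inj (w : C.Wk T) {i j : ℕ} (hi : i ≤ T) (hj : j ≤ T) (h : w.n i = w.n j) : i = j :=
  w.2.inj i j hi hj h

theorem n_mr (w : C.Wk T) {i : ℕ} (hi : i ≤ T) : C.M (w.n i) := w.2.mr i hi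

variable [Fintype V]

theorem mult_unique {om : C.Wk T → Bool} {x : V} (h : mult om x ≤ 1) {w w' : C.Wk T}
    (hw : om w = true) (hx : w.has x) (hw' : om w' = true) (hx' : w'.has x) : w = w' := by
  unfold mult at h
  rw [Finset.card_le_one] at h
  exact h w (Finset.mem_filter.2 ⟨Finset.mem_univ _, hw, hx⟩) w'
    (Finset.mem_filter.2 ⟨Finset.mem_univ _, hw', hx'⟩)

theorem mult_pos {om : C.Wk T → Bool} {x : V} {w : C.Wk T} (hw : om w = true) (hx : w.has x) :
    0 < mult om x :=
  Finset.card_pos.2 ⟨w, Finset.mem_filter.2 ⟨Finset.mem_univ _, hw, hx⟩⟩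

theorem exists_of_mult {om : C.Wk T → Bool} {x : V} (h : 0 < mult om x) :
    ∃ w : C.Wk T, om w = true ∧ w.has x := by
  obtain ⟨w, hw⟩ := Finset.card_pos.1 h
  exact ⟨w, (Finset.mem_filter.1 hw).2⟩

theorem mult_rem_le (om : C.Wk T → Bool) (w : C.Wk T) (x : V) :
    mult (rem om w) x ≤ mult om x := by
  refine Finset.card_le_card fun w' hw' => ?_
  obtain ⟨_, h1, h2⟩ := Finset.mem_filter.1 hw'
  refine Finset.mem_filter.2 ⟨Finset.mem_univ _, ?_, h2⟩
  by_cases h : w' = w
  · rw [h] at h1
    simp [Cl.rem] at h1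
  · simpa [Cl.rem, h] using h1

omit [Fintype V] in
theorem rem_of_ne {om : C.Wk T → Bool} {w w' : C.Wk T} (h : w' ≠ w) : rem om w w' = om w' := by
  simp [Cl.rem, h]

theorem arc_unique {om : C.Wk T → Bool} {x y y' : V} (h : arc om x y) (h' : arc om x y') :
    y = y' := by
  rcases h with ⟨h0, h1⟩ | ⟨w, hw, i, hi, hx, hy, hm, _⟩ <;>
    rcases h' with ⟨h0', h1'⟩ | ⟨w', hw', i', hi', hx', hy', hm', _⟩
  · rw [h1] at h1'
    exact Option.some.inj h1'
  · omega
  · omega
  · have hww : w = w' := mult_unique hm.le hw ⟨i, hi.le, hx⟩ hw' ⟨i', hi'.le, hx'⟩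
    subst hww
    have hii : i = i' := n_inj w hi.le hi'.le (hx.trans hx'.symm)
    subst hii
    unfold Wk.hd at hy hy'
    rw [hy] at hy'
    exact Option.some.inj hy'

theorem cx_iff (om : C.Wk T → Bool) (x y : V) : cx om x = some y ↔ arc om x y := by
  unfold cx
  constructor
  · intro h
    split_ifs at h with h1
    rw [← Option.some.inj h]
    exact h1.choose_spec
  · intro h
    rw [dif_pos ⟨y, h⟩]
    congr 1
    exact arc_unique (Exists.choose_spec (⟨y, h⟩ : ∃ y, arc om x y)) h

/-- PIM -/
theorem pim : PIMStmt := by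
  intro V _ C d T hok
  refine ⟨cx_iff, ?_, ?_, ?_, ?_, ?_, ?_, ?_⟩
  · intro om x x' y h h'
    rw [cx_iff] at h h'
    rcases h with ⟨h0, h1⟩ | ⟨w, hw, i, hi, hx, hy, hm, hm1⟩ <;>
      rcases h' with ⟨h0', h1'⟩ | ⟨w', hw', i', hi', hx', hy', hm', hm1'⟩
    · exact hok.inj _ _ _ h1 h1'
    · have h2 : x = w'.n (i' + 1) := hok.inj _ _ _ h1 hy'
      have := mult_pos hw' (has_n w' (show i' + 1 ≤ T by omega))
      rw [← h2] at this
      omega
    · have h2 : x' = w.n (i + 1) := hok.inj _ _ _ h1' hy
      have := mult_pos hw (has_n w (show i + 1 ≤ T by omega))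
      rw [← h2] at this
      omega
    · have h2 : w.n (i + 1) = w'.n (i' + 1) := hok.inj _ _ _ hy hy'
      have hww : w = w' := mult_unique hm1.le hw (has_n w (show i + 1 ≤ T by omega)) hw'
        ⟨i' + 1, by omega, h2.symm⟩
      subst hww
      have h3 := n_inj w (show i + 1 ≤ T by omega) (show i' + 1 ≤ T by omega) h2
      have h4 : i = i' := by omega
      subst h4
      rw [← hx, ← hx']
  · intro om x y h
    rw [cx_iff] at h
    rcases h with ⟨_, h1⟩ | ⟨w, hw, i, hi, hx, hy, hm, hm1⟩
    · exact ⟨y, h1⟩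
    · exact hok.mkd x (hx ▸ n_mr w hi.le)
  · intro om x y h
    rw [cx_iff] at h
    rcases h with ⟨_, h1⟩ | ⟨w, hw, i, hi, hx, hy, hm, hm1⟩
    · exact ⟨x, h1⟩
    · exact ⟨_, hy⟩
  · intro om x hx
    have hm : mult om x = 0 := by
      by_contra h
      obtain ⟨w, hw, i, hi, hxi⟩ := exists_of_mult (Nat.pos_of_ne_zero h)
      exact hx (hxi ▸ n_mr w hi)
    have h1 : ∀ y, cx om x = some y ↔ C.f x = some y := by
      intro y
      rw [cx_iff]
      constructor
      · rintro (⟨_, h⟩ | ⟨w, hw, i, hi, hx', hy, hm', hm1⟩)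
        · exact h
        · omega
      · intro h
        exact Or.inl ⟨hm, h⟩
    exact Option.ext h1
  · rintro om x y ⟨w, hw, i, hi, hx, hy, hm, hm1⟩
    refine ⟨hx ▸ n_mr w hi.le, ?_⟩
    obtain ⟨_, _, y', hy', hP⟩ := w.2.step i hi
    have h1 : C.f (w.n (i + 1)) = some y' := hy'
    unfold Wk.hd at hy
    rw [h1] at hy
    have h2 := Option.some.inj hy
    have h3 : C.P (w.n i) y' := hP
    rw [← hx, ← h2]
    exact h3
  · intro om w x y hw h hn
    rw [cx_iff] at h ⊢
    rcases h with ⟨h0, h1⟩ | ⟨w', hw', i, hi, hx, hy, hm, hm1⟩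
    · refine Or.inl ⟨?_, h1⟩
      have := mult_rem_le om w x
      omega
    · have hne : w' ≠ w := by
        rintro rfl
        exact hn ⟨hm, i, hi.le, hx⟩
      have hrw : rem om w w' = true := by rw [rem_of_ne hne]; exact hw'
      refine Or.inr ⟨w', hrw, i, hi, hx, hy, ?_, ?_⟩
      · have h1 := mult_rem_le om w x
        have h2 := mult_pos hrw (show w'.has x from ⟨i, hi.le, hx⟩)
        omega
      · have h1 := mult_rem_le om w (w'.n (i + 1))
        have h2 := mult_pos hrw (has_n w' (show i + 1 ≤ T by omega))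
        omega
  · rintro om v (⟨⟨y, hy⟩, hnone⟩ | ⟨⟨x, hx⟩, hno⟩)
    · rcases Nat.lt_or_ge (mult om v) 2 with hlt | hge
      · rcases Nat.eq_zero_or_pos (mult om v) with h0 | hpos
        · exfalso
          have : cx om v = some y := (cx_iff om v y).2 (Or.inl ⟨h0, hy⟩)
          rw [hnone] at this
          exact absurd this (by simp)
        · obtain ⟨w, hw, i, hi, hv⟩ := exists_of_mult hpos
          rcases Nat.lt_or_ge i T with hiT | hiT
          · right; right; right; left
            refine ⟨w, hw, i, hiT, hv, ?_⟩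
            by_contra hcon
            obtain ⟨y', hy'⟩ := hok.mkd (w.n (i + 1)) (n_mr w (by omega))
            have h2 := mult_pos hw (has_n w (show i + 1 ≤ T by omega))
            have : cx om v = some y' := (cx_iff om v y').2
              (Or.inr ⟨w, hw, i, hiT, hv, hy', by omega, by omega⟩)
            rw [hnone] at this
            exact absurd this (by simp)
          · left
            have : i = T := by omega
            subst this
            exact ⟨w, hw, Or.inl hv⟩
      · exact Or.inr (Or.inl hge)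
    · rcases Nat.lt_or_ge (mult om x) 2 with hlt | hge
      · rcases Nat.eq_zero_or_pos (mult om x) with h0 | hpos
        · exfalso
          exact hno x ((cx_iff om x v).2 (Or.inl ⟨h0, hx⟩))
        · obtain ⟨w, hw, j, hj, hxj⟩ := exists_of_mult hpos
          rcases j with _ | i
          · left
            exact ⟨w, hw, Or.inr (by rw [hxj]; exact hx)⟩
          · right; right; right; right
            have hhd : w.hd i v := by
              unfold Wk.hd
              rw [hxj]; exact hx
            refine ⟨w, hw, i, by omega, hhd, ?_⟩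
            by_contra hcon
            have h2 := mult_pos hw (has_n w (show i ≤ T by omega))
            refine hno (w.n i) ((cx_iff om (w.n i) v).2
              (Or.inr ⟨w, hw, i, by omega, rfl, hhd, by omega, ?_⟩))
            rw [hxj]
            omega
      · exact Or.inr (Or.inr (Or.inl ⟨x, hx, hge⟩))

end Pool.Agent.C4K.H58
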