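import Pool.Agent.C4K.StLin
import Pool.Agent.Helper58_C4K.Pim

/-! FIN: the deterministic conclusion. -/

set_option autoImplicit false
set_option linter.unusedSectionVars false

namespace Pool.Agent.C4K.H58

open Finset Cl
open scoped Classical

noncomputable section

section iter

variable {V : Type} {f g : V → Option V}

theorem it_bind (hI : Itr f) (i j : ℕ) (v u : V) (h : it f i v = some u) :
    it f (i + j) v = it f j u := by
  rw [hI.add, h]
  rfl

theorem it_sub (hf : Itr f) (hg : Itr g) (h : ∀ x y, f x = some y → g x = some y) :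
    ∀ a x u, it f a x = some u → it g a x = some u := by
  intro a
  induction a with
  | zero => intro x u hu; exact hu
  | succ a ih =>
    intro x u hu
    rw [hf.succ] at hu
    rw [hg.succ]
    obtain ⟨v, hv, hvu⟩ := Option.bind_eq_some_iff.1 hu
    rw [ih x v hv]
    exact h v u hvu

theorem it_cyc (hI : Itr f) {m : ℕ} {x : V} (h : it f m x = some x) (q : ℕ) :
    it f (m * q) x = some x := by
  induction q with
  | zero => rfl
  | succ q ih =>
    rw [Nat.mul_succ, it_bind hI _ _ _ _ ih, h]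

theorem it_ne_none (hI : Itr f) {m : ℕ} (hm : 1 ≤ m) {x : V} (h : it f m x = some x) (a : ℕ) :
    ∃ u, it f a x = some u := by
  by_contra hcon
  have hn : it f a x = none := by
    rcases h1 : it f a x with _ | u
    · rfl
    · exact absurd ⟨u, h1⟩ hcon
  have h1 := it_cyc hI h a
  obtain ⟨b, hb⟩ : ∃ b, m * a = a + b := ⟨m * a - a, by
    have : a ≤ m * a := Nat.le_mul_of_pos_left a hm
    omega⟩
  rw [hb, hI.add, hn] at h1
  exact absurd h1 (by simp)

end iter

variable {V : Type} [Fintype V] {n : ℕ} {C : Fin n → Cl V} {T : ℕ}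

/-- the nodes whose out-arcs are deleted -/
def Del (A : ℕ) (τ : ℕ → ℕ) (om : Cf C T) (κ : ℕ → Fin n → V → Bool) (c : Fin n) (x : V) : Prop :=
  Jt (τ 0) (om c) x ∨
  ((C c).M x ∧ ∃ a, a < A ∧ κ a c x = true ∧ Iv (τ a) (τ (a + 1)) (om c) x ∧
    ∃ v, cx (om c) x = some v ∧ Iv (τ a) (τ (a + 1)) (om c) v) ∨
  ((C c).M x ∧ κ A c x = true) ∨
  (∃ c' y, c' ≠ c ∧ lnk (om c) x y ∧ lnk (om c') x y)

/-- the final classes -/
def DD (A : ℕ) (τ : ℕ → ℕ) (om : Cf C T) (κ : ℕ → Fin n → V → Bool) (c : Fin n) (x : V) :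
    Option V := if Del A τ om κ c x then none else cx (om c) x

theorem DD_some {A : ℕ} {τ : ℕ → ℕ} {om : Cf C T} {κ : ℕ → Fin n → V → Bool} {c : Fin n}
    {x y : V} (h : DD A τ om κ c x = some y) : ¬ Del A τ om κ c x ∧ cx (om c) x = some y := by
  unfold DD at h
  split_ifs at h with h1
  exact ⟨h1, h⟩

theorem Del_M {A : ℕ} {τ : ℕ → ℕ} {om : Cf C T} {κ : ℕ → Fin n → V → Bool} {c : Fin n}
    {x : V} (h : Del A τ om κ c x) : (C c).M x := by
  rcases h with ⟨w, i, l, t, _, ⟨_, _, hl, _⟩, hx⟩ | ⟨h, _⟩ | ⟨h, _⟩ | ⟨_, y, _, h, _⟩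
  · rw [← hx]
    exact n_mr w hl.le
  · exact h
  · exact h
  · obtain ⟨w, _, i, hi, hx, _⟩ := h
    rw [← hx]
    exact n_mr w hi.le

/-- a vertex which has lost its out-arc -/
theorem why_out {A : ℕ} {τ : ℕ → ℕ} {om : Cf C T} {κ : ℕ → Fin n → V → Bool} {c : Fin n} {v : V}
    (hv : ∃ y, (C c).f v = some y) (h : DD A τ om κ c v = none) :
    Dv (om c) v ∨ Jt (τ 0) (om c) v ∨ (∃ c' y, c' ≠ c ∧ lnk (om c) v y ∧ lnk (om c') v y) ∨
      ∃ a, a ≤ A ∧ κ a c v = true ∧ (a = A ∨ Iv (τ a) (τ (a + 1)) (om c) v) := by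
  unfold DD at h
  split_ifs at h with h1
  · rcases h1 with h1 | ⟨_, a, ha, h1, h2, _⟩ | ⟨_, h1⟩ | h1
    · exact Or.inr (Or.inl h1)
    · exact Or.inr (Or.inr (Or.inr ⟨a, ha.le, h1, Or.inr h2⟩))
    · exact Or.inr (Or.inr (Or.inr ⟨A, le_rfl, h1, Or.inl rfl⟩))
    · exact Or.inr (Or.inr (Or.inl h1))
  · exact Or.inl (Or.inl ⟨hv, h⟩)

/-- a vertex which has lost its in-arc -/
theorem why_in {A : ℕ} {τ : ℕ → ℕ} {om : Cf C T} {κ : ℕ → Fin n → V → Bool} {c : Fin n} {v : V}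
    (hv : ∃ x, (C c).f x = some v) (h : ∀ x, DD A τ om κ c x ≠ some v) :
    Dv (om c) v ∨ Jh (τ 0) (om c) v ∨ (∃ c' x, c' ≠ c ∧ lnk (om c) x v ∧ lnk (om c') x v) ∨
      ∃ a, a ≤ A ∧ (∃ v', cx (om c) v' = some v ∧ κ a c v' = true) ∧
        (a = A ∨ Iv (τ a) (τ (a + 1)) (om c) v) := by
  by_cases h0 : ∀ x, cx (om c) x ≠ some v
  · exact Or.inl (Or.inr ⟨hv, h0⟩)
  · push Not at h0
    obtain ⟨x, hx⟩ := h0
    have h1 : Del A τ om κ c x := by
      by_contra h2
      apply h x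
      unfold DD
      rw [if_neg h2]
      exact hx
    have harc := (cx_iff (om c) x v).1 hx
    rcases h1 with ⟨w, i, l, t, ht, hw, hl⟩ | ⟨_, a, ha, h1, _, v', h2, h3⟩ | ⟨_, h1⟩ |
        ⟨c', y, hc, h1, h2⟩
    · refine Or.inr (Or.inl ⟨w, i, l, t, ht, hw, ?_⟩)
      obtain ⟨how, hil, hlT, y, hy, _⟩ := hw
      rcases harc with ⟨h0, _⟩ | ⟨w', hw', j, hj, hxj, hd, hm, _⟩
      · have := mult_pos how (show w.has x from ⟨l, hlT.le, hl⟩)
        omega
      · have hww : w' = w := mult_unique hm.le hw' ⟨j, hj.le, hxj⟩ how ⟨l, hlT.le, hl⟩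
        subst hww
        have hjl : j = l := n_inj w' hj.le hlT.le (hxj.trans hl.symm)
        subst hjl
        exact hd
    · refine Or.inr (Or.inr (Or.inr ⟨a, ha.le, ⟨x, hx, h1⟩, Or.inr ?_⟩))
      rw [hx] at h2
      rw [Option.some.inj h2]
      exact h3
    · exact Or.inr (Or.inr (Or.inr ⟨A, le_rfl, ⟨x, hx, h1⟩, Or.inl rfl⟩))
    · have hyv : y = v := by
        have := (cx_iff (om c) x y).2 (Or.inr h1)
        rw [hx] at this
        exact (Option.some.inj this).symm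
      subst hyv
      exact Or.inr (Or.inr (Or.inl ⟨c', x, hc, h1, h2⟩))

theorem scale {τ : ℕ → ℕ} {t : ℕ} : ∀ m, t ≤ τ m → t ≤ τ 0 ∨ ∃ a, a < m ∧ τ a < t ∧ t ≤ τ (a + 1)
  | 0, h => Or.inl h
  | m + 1, h => by
    by_cases h1 : t ≤ τ m
    · rcases scale m h1 with h2 | ⟨a, ha, h2⟩
      · exact Or.inl h2
      · exact Or.inr ⟨a, by omega, h2⟩
    · exact Or.inr ⟨m, by omega, by omega, h⟩

theorem acyc (hI : ITRStmt) (hC : CLOStmt) (hO : OLDStmt) {d : ℝ} {L L0 A m0 : ℕ} {τ : ℕ → ℕ}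
    {om : Cf C T} {κ : ℕ → Fin n → V → Bool} (hok : ∀ c, (C c).Ok d)
    (hold : ∀ c v, (∀ j, j < L0 → it (C c).f j v ≠ none) →
      ∃ j u, it (C c).f j v = some u ∧ mult (om c) u ≠ 0)
    (hA : τ A = L) (hcoin : Coins L A m0 τ om κ) (c : Fin n) (x : V) (m : ℕ) (hm : 1 ≤ m) :
    it (DD A τ om κ c) m x ≠ some x := by
  intro hcyc
  have hID := hI V (DD A τ om κ c)
  have hIX := hI V (cx (om c))
  have hinj : PInj (cx (om c)) := (pim V (C c) d T (hok c)).inj (om c)
  have hsub := it_sub hID hIX (fun x y h => (DD_some h).2)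
  -- nodes of the cycle are not deleted
  have hnd : ∀ a u, it (cx (om c)) a x = some u → ¬ Del A τ om κ c u := by
    intro a u hu
    obtain ⟨u', hu'⟩ := it_ne_none hID hm hcyc a
    have h1 := hsub _ _ _ hu'
    rw [hu] at h1
    have h2 := Option.some.inj h1
    subst h2
    obtain ⟨u'', hu''⟩ := it_ne_none hID hm hcyc (a + 1)
    rw [it_bind hID _ _ _ _ hu'] at hu''
    have h3 : DD A τ om κ c u = some u'' := by
      have h4 := hID.succ 0 u
      simp only [Nat.zero_add] at h4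
      rw [hu''] at h4
      exact h4.symm
    exact (DD_some h3).1
  have hex : ∃ m, 1 ≤ m ∧ it (cx (om c)) m x = some x := ⟨m, hm, hsub _ _ _ hcyc⟩
  obtain ⟨hm1, hm2⟩ := Nat.find_spec hex
  have hmin : ∀ b, 1 ≤ b → b < Nat.find hex → it (cx (om c)) b x ≠ some x := by
    intro b hb hlt heq
    exact Nat.find_min hex hlt ⟨hb, heq⟩
  set μ := Nat.find hex with hμ
  have hnn : ∀ a, it (cx (om c)) a x ≠ none := by
    intro a
    obtain ⟨u, hu⟩ := it_ne_none hIX hm1 hm2 a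
    rw [hu]
    exact Option.some_ne_none _
  by_cases hLμ : L ≤ μ
  · obtain ⟨j, u, hj, hu, hM, hκ⟩ := hcoin.kA c x (fun j _ => hnn j) (by
      intro a b hab hb heq
      obtain ⟨u, hu⟩ := Option.ne_none_iff_exists'.1 (hnn a)
      have h1 : it (cx (om c)) (a + (b - a)) x = some u := by
        rw [Nat.add_sub_cancel' hab.le, ← heq, hu]
      exact hmin (b - a) (by omega) (by omega) (hIX.rep hinj x a (b - a) u hu h1))
    exact hnd j u hu (Or.inr (Or.inr (Or.inl ⟨hM, hκ⟩)))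
  · push Not at hLμ
    have hlink : ∃ a u, it (cx (om c)) a x = some u ∧ mult (om c) u ≠ 0 := by
      by_contra hcon
      push Not at hcon
      have h1 := hO V (C c) d T (hok c) (om c) x μ hm2 hcon
      obtain ⟨j, u, hu, hmu⟩ := hold c x (fun j _ => by rw [h1]; exact hnn j)
      rw [h1] at hu
      exact hmu (hcon j u hu)
    obtain ⟨w, i, l, t, y, hclo, hhd, ht, hcxl, ⟨a0, ha0⟩, hpath⟩ :=
      hC V (C c) d T (hok c) (om c) x μ hm1 hm2 hlink
    obtain ⟨how, hil, hlT, y', hy', hitt, _⟩ := hclo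
    have hyy : y' = y := by
      unfold Wk.hd at hy' hhd
      rw [hy'] at hhd
      exact Option.some.inj hhd
    subst hyy
    rcases scale (τ := τ) (t := t) A (by omega) with h0 | ⟨a, haA, hat, hat'⟩
    · exact hnd a0 _ ha0 (Or.inl ⟨w, i, l, t, h0, ⟨how, hil, hlT, y', hy', hitt⟩, rfl⟩)
    · obtain ⟨j, u, y'', hj, hy'', hju, hM, hκ⟩ := hcoin.ka a haA c w i l t
        ⟨how, hil, hlT, y', hy', hitt, by assumption⟩ hat hat'
      have hyy : y'' = y' := by
        unfold Wk.hd at hy' hy''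
        rw [hy''] at hy'
        exact Option.some.inj hy'
      subst hyy
      have hIR := hI V (cx (rem (om c) w))
      obtain ⟨u1, u2, h1, h2, h3, a1, h4⟩ := hpath j (by omega)
      rw [hju] at h1
      have huu := Option.some.inj h1
      subst huu
      refine hnd a1 _ h4 (Or.inr (Or.inl ⟨hM, a, haA, hκ, ?_, u2, h3, ?_⟩))
      · refine ⟨w, i, l, y'', j, t - j, how, hil, hlT, hy'', hju, ?_, by omega, by omega⟩
        have h5 := it_bind hIR j (t - j) _ _ hju
        rw [← h5, Nat.add_sub_cancel' (by omega : j ≤ t)]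
        exact hitt
      · refine ⟨w, i, l, y'', j + 1, t - (j + 1), how, hil, hlT, hy'', h2, ?_, by omega, by omega⟩
        have h5 := it_bind hIR (j + 1) (t - (j + 1)) _ _ h2
        rw [← h5, Nat.add_sub_cancel' (by omega : j + 1 ≤ t)]
        exact hitt

/-- counting the coins -/
theorem coin_card (A : ℕ) (Q : ℕ → Fin n → Prop) (S : Finset (ℕ × Fin n)) (S' : Finset (Fin n))
    (hS : ∀ a c, a ≤ A → Q a c → (a, c) ∈ S) (hS' : ∀ c ∈ S', ∃ a, a ≤ A ∧ Q a c) :
    S'.card ≤ S.card := by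
  have h1 : S' ⊆ S.image Prod.snd := by
    intro c hc
    obtain ⟨a, ha, hq⟩ := hS' c hc
    rw [Finset.mem_image]
    exact ⟨(a, c), hS a c ha hq, rfl⟩
  exact (Finset.card_le_card h1).trans Finset.card_image_le

theorem four_card (S S1 S2 S3 S4 : Finset (Fin n)) (h : ∀ c ∈ S, c ∈ S1 ∨ c ∈ S2 ∨ c ∈ S3 ∨ c ∈ S4)
    {m : ℕ} (h1 : S1.card ≤ m) (h2 : S2.card ≤ m) (h3 : S3.card ≤ 3 * m) (h4 : S4.card ≤ m) :
    S.card ≤ 6 * m := by
  have h5 : S ⊆ S1 ∪ (S2 ∪ (S3 ∪ S4)) := by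
    intro c hc
    simp only [Finset.mem_union]
    exact h c hc
  have h6 := Finset.card_le_card h5
  have h7 := Finset.card_union_le S1 (S2 ∪ (S3 ∪ S4))
  have h8 := Finset.card_union_le S2 (S3 ∪ S4)
  have h9 := Finset.card_union_le S3 S4
  omega

/-- FIN2 -/
theorem fin2 (hI : ITRStmt) (hC : CLOStmt) (hO : OLDStmt) (hDup : DUPStmt) : FIN2Stmt := by
  intro V _ n C d T L L0 A m0 τ om κ hok hP _ hm0 hdis hold hA _ _ hDv hJt hJh hdO hdI hcoin
  have hpim := fun c => pim V (C c) d T (hok c)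
  refine ⟨DD A τ om κ, ⟨?_, ?_, ?_, ?_, ?_, ?_, ?_, ?_⟩, ?_⟩
  · intro c x x' y h h'
    exact (hpim c).inj (om c) x x' y (DD_some h).2 (DD_some h').2
  · intro c x y h
    rcases (cx_iff (om c) x y).1 (DD_some h).2 with ⟨_, h1⟩ | h1
    · exact Or.inl h1
    · exact Or.inr ((hpim c).new (om c) x y h1)
  · intro c x y h
    exact (hpim c).dom (om c) x y (DD_some h).2
  · intro c x y h
    exact (hpim c).ran (om c) x y (DD_some h).2
  · intro c x hx
    unfold DD
    rw [if_neg fun h => hx (Del_M h)]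
    exact (hpim c).unm (om c) x hx
  · intro c c' x y h h'
    obtain ⟨h1, h2⟩ := DD_some h
    obtain ⟨h1', h2'⟩ := DD_some h'
    rcases (cx_iff (om c) x y).1 h2 with ⟨_, h3⟩ | h3 <;>
      rcases (cx_iff (om c') x y).1 h2' with ⟨_, h3'⟩ | h3'
    · exact hdis c c' x y h3 h3'
    · have h4 := ((hpim c').new (om c') x y h3').2
      rw [hP c' c] at h4
      exact absurd h4 ((hok c).fP x y h3)
    · have h4 := ((hpim c).new (om c) x y h3).2
      rw [hP c c'] at h4
      exact absurd h4 ((hok c').fP x y h3')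
    · by_contra hne
      exact h1 (Or.inr (Or.inr (Or.inr ⟨c', y, fun h => hne h.symm, h3, h3'⟩)))
  · intro c x m hm
    exact acyc hI hC hO hok hold hA hcoin c x m hm
  · intro v
    have hd := hDup V n C d T hok om v m0 hm0
    have h1 : (univ.filter fun c => (∃ y, (C c).f v = some y) ∧ DD A τ om κ c v = none).card ≤
        6 * m0 := by
      refine four_card _ (univ.filter fun c => Dv (om c) v)
        (univ.filter fun c => Jt (τ 0) (om c) v)
        (univ.filter fun c => ∃ c' y, c' ≠ c ∧ lnk (om c) v y ∧ lnk (om c') v y)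
        (univ.filter fun c => ∃ a, a ≤ A ∧ (κ a c v = true ∧
          (a = A ∨ Iv (τ a) (τ (a + 1)) (om c) v))) ?_ (hDv v) (hJt v) (hd.1 (hdO v)) ?_
      · intro c hc
        obtain ⟨_, hf, hn⟩ := Finset.mem_filter.1 hc
        simp only [Finset.mem_filter, Finset.mem_univ, true_and]
        exact why_out hf hn
      · refine (coin_card A (fun a c => κ a c v = true ∧
          (a = A ∨ Iv (τ a) (τ (a + 1)) (om c) v)) _ _ ?_ ?_).trans (hcoin.kb v).le
        · intro a c ha hq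
          exact Finset.mem_filter.2 ⟨Finset.mem_product.2
            ⟨Finset.mem_range.2 (by omega), Finset.mem_univ _⟩, hq⟩
        · intro c hc
          exact (Finset.mem_filter.1 hc).2
    have h2 : (univ.filter fun c => (∃ x, (C c).f x = some v) ∧
        ∀ x, DD A τ om κ c x ≠ some v).card ≤ 6 * m0 := by
      refine four_card _ (univ.filter fun c => Dv (om c) v)
        (univ.filter fun c => Jh (τ 0) (om c) v)
        (univ.filter fun c => ∃ c' x, c' ≠ c ∧ lnk (om c) x v ∧ lnk (om c') x v)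
        (univ.filter fun c => ∃ a, a ≤ A ∧ ((∃ v', cx (om c) v' = some v ∧ κ a c v' = true) ∧
          (a = A ∨ Iv (τ a) (τ (a + 1)) (om c) v))) ?_ (hDv v) (hJh v) (hd.2 (hdI v)) ?_
      · intro c hc
        obtain ⟨_, hf, hn⟩ := Finset.mem_filter.1 hc
        simp only [Finset.mem_filter, Finset.mem_univ, true_and]
        exact why_in hf hn
      · refine (coin_card A (fun a c => (∃ v', cx (om c) v' = some v ∧ κ a c v' = true) ∧
          (a = A ∨ Iv (τ a) (τ (a + 1)) (om c) v)) _ _ ?_ ?_).trans (hcoin.kb' v).le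
        · intro a c ha hq
          exact Finset.mem_filter.2 ⟨Finset.mem_product.2
            ⟨Finset.mem_range.2 (by omega), Finset.mem_univ _⟩, hq⟩
        · intro c hc
          exact (Finset.mem_filter.1 hc).2
    omega
  · intro c v h
    rcases h with ⟨hf, hn⟩ | ⟨hf, hn⟩
    · rcases why_out hf hn with h | h | h | ⟨a, ha, h1, h2⟩
      · exact Or.inl (Or.inl h)
      · exact Or.inl (Or.inr (Or.inl h))
      · exact Or.inr (Or.inl (Or.inl h))
      · exact Or.inr (Or.inr (Or.inl ⟨a, ha, h1, h2⟩))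
    · rcases why_in hf hn with h | h | h | ⟨a, ha, ⟨v', h1, h2⟩, h3⟩
      · exact Or.inl (Or.inl h)
      · exact Or.inl (Or.inr (Or.inr h))
      · exact Or.inr (Or.inl (Or.inr h))
      · exact Or.inr (Or.inr (Or.inr ⟨a, v', ha, h1, h2, h3⟩))

/-- FIN -/
theorem fin (hI : ITRStmt) (hC : CLOStmt) (hO : OLDStmt) (hDup : DUPStmt) : FINStmt := by
  intro V _ n C d T L L0 A m0 τ om κ h1 h2 h3 h4 h5 h6 h7 h8 h9 h10 h11 h12 h13 h14 h15
  obtain ⟨D, hD, _⟩ := fin2 hI hC hO hDup V n C d T L L0 A m0 τ om κ h1 h2 h3 h4 h5 h6 h7 h8 h9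
    h10 h11 h12 h13 h14 h15
  exact ⟨D, hD⟩

end

end Pool.Agent.C4K.H58
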