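import Pool.Agent.C4K.StCnt

/-! KST: number of pool arcs between two sets. -/

set_option autoImplicit false

namespace Pool.Agent.C4K.H58

open Finset Cl
open scoped Classical

/-- KST -/
theorem kst : KSTStmt := by
  intro V _ C d hok F B
  set e : ℕ := ((F ×ˢ B).filter fun x => C.P x.1 x.2).card with he
  -- degrees of the nodes of `B`
  have h1 : e = ∑ y ∈ B, (F.filter fun x => C.P x y).card := by
    rw [he]
    rw [Finset.card_eq_sum_card_fiberwise (f := Prod.snd) (t := B)]
    · refine Finset.sum_congr rfl fun y hy => ?_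
      refine Finset.card_bij (fun p _ => p.1) ?_ ?_ ?_
      · intro p hp
        simp only [Finset.mem_filter, Finset.mem_product] at hp ⊢
        obtain ⟨⟨⟨h1, h2⟩, h3⟩, h4⟩ := hp
        exact ⟨h1, h4 ▸ h3⟩
      · intro p hp q hq hpq
        simp only [Finset.mem_filter, Finset.mem_product] at hp hq
        exact Prod.ext hpq (hp.2.trans hq.2.symm)
      · intro x hx
        simp only [Finset.mem_filter] at hx
        refine ⟨(x, y), ?_, rfl⟩
        simp only [Finset.mem_filter, Finset.mem_product]
        exact ⟨⟨⟨hx.1, hy⟩, hx.2⟩, trivial⟩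
    · intro p hp
      simp only [Finset.coe_filter, Finset.mem_product, Set.mem_ofPred_eq] at hp
      exact hp.1.2
  -- second moment
  have h2 : ∑ y ∈ B, (F.filter fun x => C.P x y).card ^ 2 ≤ F.card ^ 2 + e := by
    have h3 : ∀ y, (F.filter fun x => C.P x y).card ^ 2 =
        ∑ x ∈ F, ∑ x' ∈ F, if C.P x y ∧ C.P x' y then 1 else 0 := by
      intro y
      rw [sq, Finset.card_filter, Finset.sum_mul_sum]
      refine Finset.sum_congr rfl fun x _ => Finset.sum_congr rfl fun x' _ => ?_
      by_cases hx : C.P x y <;> by_cases hx' : C.P x' y <;> simp [hx, hx']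
    calc ∑ y ∈ B, (F.filter fun x => C.P x y).card ^ 2
        = ∑ y ∈ B, ∑ x ∈ F, ∑ x' ∈ F, (if C.P x y ∧ C.P x' y then 1 else 0) :=
          Finset.sum_congr rfl fun y _ => h3 y
      _ = ∑ x ∈ F, ∑ x' ∈ F, ∑ y ∈ B, (if C.P x y ∧ C.P x' y then 1 else 0) := by
          rw [Finset.sum_comm]
          refine Finset.sum_congr rfl fun x _ => ?_
          rw [Finset.sum_comm]
      _ ≤ ∑ x ∈ F, ∑ x' ∈ F, (1 + if x = x' then (B.filter fun y => C.P x y).card else 0) := by
          refine Finset.sum_le_sum fun x _ => Finset.sum_le_sum fun x' _ => ?_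
          rw [← Finset.card_filter]
          by_cases hxx : x = x'
          · subst hxx
            rw [if_pos rfl]
            refine le_trans (Finset.card_le_card ?_) (Nat.le_add_left _ 1)
            intro y hy
            simp only [Finset.mem_filter] at hy ⊢
            exact ⟨hy.1, hy.2.1⟩
          · rw [if_neg hxx]
            rw [Nat.add_zero, Finset.card_le_one]
            intro y hy y' hy'
            simp only [Finset.mem_filter] at hy hy'
            exact hok.c4.c4 x x' y y' hxx (hok.PN _ _ hy.2.1) (hok.PN _ _ hy.2.2)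
              (hok.PN _ _ hy'.2.1) (hok.PN _ _ hy'.2.2)
      _ = F.card ^ 2 + ∑ x ∈ F, (B.filter fun y => C.P x y).card := by
          simp only [Finset.sum_add_distrib, Finset.sum_const, smul_eq_mul, mul_one,
            Finset.sum_ite_eq]
          congr 1
          · exact (sq _).symm
          · refine Finset.sum_congr rfl fun x hx => ?_
            rw [if_pos hx]
      _ = F.card ^ 2 + e := by
          congr 1
          rw [h1]
          simp only [Finset.card_filter]
          rw [Finset.sum_comm]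
  -- Cauchy-Schwarz
  have h4 : e ^ 2 ≤ B.card * (F.card ^ 2 + e) := by
    calc e ^ 2 = (∑ y ∈ B, (F.filter fun x => C.P x y).card) ^ 2 := by rw [← h1]
      _ ≤ B.card * ∑ y ∈ B, (F.filter fun x => C.P x y).card ^ 2 := sq_sum_le_card_mul_sum_sq
      _ ≤ B.card * (F.card ^ 2 + e) := Nat.mul_le_mul_left _ h2
  have h5 : (e : ℝ) ^ 2 ≤ B.card * ((F.card : ℝ) ^ 2 + e) := by exact_mod_cast h4
  by_contra hcon
  rw [not_le] at hcon
  set s := Real.sqrt (B.card : ℝ) with hs
  have hs0 : 0 ≤ s := Real.sqrt_nonneg _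
  have hss : s * s = B.card := Real.mul_self_sqrt (Nat.cast_nonneg _)
  have hF0 : (0 : ℝ) ≤ F.card := Nat.cast_nonneg _
  have hB0 : (0 : ℝ) ≤ B.card := Nat.cast_nonneg _
  have h6 : (F.card : ℝ) * s < (e : ℝ) - B.card := by linarith
  have h7 : (F.card : ℝ) * s * ((F.card : ℝ) * s) ≤ ((e : ℝ) - B.card) * e := by
    have h8 : (F.card : ℝ) * s ≤ e := by linarith
    exact mul_le_mul h6.le h8 (mul_nonneg hF0 hs0) (by linarith [mul_nonneg hF0 hs0])
  have h9 : (F.card : ℝ) * s * ((F.card : ℝ) * s) = B.card * (F.card : ℝ) ^ 2 := by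
    rw [← hss]; ring
  have h10 : (e : ℝ) > 0 := by linarith [mul_nonneg hF0 hs0]
  by_cases hFs : (F.card : ℝ) * s = 0
  · rw [hFs] at h9 h6
    nlinarith
  · have h11 : 0 < (F.card : ℝ) * s := lt_of_le_of_ne (mul_nonneg hF0 hs0) (Ne.symm hFs)
    nlinarith

end Pool.Agent.C4K.H58
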