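import Pool.Agent.C4K.StPr
import Pool.Agent.Helper58_C4K.Pim

/-! RCT: the expected number of vertices which read a given node. -/

set_option autoImplicit false
set_option linter.unusedSectionVars false

namespace Pool.Agent.C4K.H58

open Finset Cl LLLA
open scoped Classical

variable {V : Type} [Fintype V] {C : Cl V} {T : ℕ}

theorem qq_prob {p : ℝ} (h0 : 0 ≤ p) (h1 : p ≤ 1) :
    IsProb (W := C.Wk T) (α := fun _ => Bool) (qq p) := by
  constructor
  · intro w a
    unfold qq
    split_ifs <;> linarith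
  · intro w
    simp [qq]

/-- `om` with possibly one more walk -/
noncomputable def pls (o : Option (C.Wk T)) (om : C.Wk T → Bool) : C.Wk T → Bool :=
  fun w => om w || decide (o = some w)

theorem pls_none (om : C.Wk T → Bool) : pls none om = om := by
  funext w
  simp [pls]

theorem pls_some (om : C.Wk T → Bool) (w₀ : C.Wk T) : pls (some w₀) om = ins om w₀ := by
  funext w
  by_cases h : w = w₀
  · subst h
    simp [pls, ins]
  · have h' : ¬ w₀ = w := fun h'' => h h''.symm
    simp [pls, ins, h, h']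

theorem rem_pls (o : Option (C.Wk T)) (om : C.Wk T → Bool) (w : C.Wk T) (h : o ≠ some w) :
    rem (pls o om) w = pls o (rem om w) := by
  funext w'
  by_cases h1 : w' = w
  · subst h1
    simp [Cl.rem, pls, h]
  · simp [Cl.rem, pls, h1]

theorem rem_pls_some (om : C.Wk T → Bool) (w : C.Wk T) :
    rem (pls (some w) om) w = rem om w := by
  funext w'
  by_cases h1 : w' = w
  · subst h1
    simp [Cl.rem]
  · have h' : ¬ w = w' := fun h'' => h1 h''.symm
    simp [Cl.rem, pls, h1, h']

theorem ins_rem (om : C.Wk T → Bool) (w : C.Wk T) : ins (rem om w) w = ins om w := by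
  funext w'
  by_cases h1 : w' = w
  · subst h1
    simp [ins]
  · simp [Cl.rem, ins, h1]

theorem ins_self (om : C.Wk T → Bool) (w : C.Wk T) (h : om w = true) : ins om w = om := by
  funext w'
  by_cases h1 : w' = w
  · subst h1
    simp [ins, h]
  · simp [ins, h1]

theorem mult_pls_le (o : Option (C.Wk T)) (om : C.Wk T → Bool) (u : V) :
    mult (pls o om) u ≤ mult om u + 1 := by
  unfold mult
  have h1 : (univ.filter fun w => pls o om w = true ∧ w.has u) ⊆
      (univ.filter fun w => om w = true ∧ w.has u) ∪ o.toFinset := by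
    intro w hw
    obtain ⟨_, h1, h2⟩ := Finset.mem_filter.1 hw
    simp only [pls, Bool.or_eq_true, decide_eq_true_eq] at h1
    rcases h1 with h1 | h1
    · exact Finset.mem_union_left _ (Finset.mem_filter.2 ⟨Finset.mem_univ _, h1, h2⟩)
    · refine Finset.mem_union_right _ ?_
      rw [Option.mem_toFinset, h1]
      rfl
  refine (Finset.card_le_card h1).trans ((Finset.card_union_le _ _).trans ?_)
  refine Nat.add_le_add_left ?_ _
  cases o <;> simp

theorem nod_pls {L : ℕ} (hR : Rds C T L) {o : Option (C.Wk T)} {om : C.Wk T → Bool} {u v : V}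
    (h : u ∈ nod L (pls o om) v) :
    u ∈ rd L (pls o om) v ∨
    (∃ w, om w = true ∧ w.meets (rd L (pls o (rem om w)) v) ∧ u ∈ rd L (pls o (rem om w)) v) ∨
    (∃ w₀, o = some w₀ ∧ u ∈ rd L (rem om w₀) v) ∨
    (∃ w, om w = true ∧ ∃ l, l < T ∧ w.n l = v ∧ ∃ y, w.hd l y ∧
      u ∈ rd L (pls o (rem om w)) y) ∨
    (∃ w₀, o = some w₀ ∧ ∃ l, l < T ∧ w₀.n l = v) := by
  unfold nod at h
  rw [Finset.mem_filter] at h
  obtain ⟨_, h | ⟨w, hw, hm, hu⟩ | ⟨w, hw, l, hl, hv, y, hy, hu⟩⟩ := h
  · exact Or.inl h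
  · by_cases ho : o = some w
    · right; right; left
      refine ⟨w, ho, ?_⟩
      rw [ho, rem_pls_some] at hu
      exact hu
    · right; left
      have h1 : om w = true := by
        simp only [pls, Bool.or_eq_true, decide_eq_true_eq] at hw
        exact hw.resolve_right ho
      have hm' := (hR.meet _ _ _).1 hm
      rw [rem_pls o om w ho] at hu hm'
      exact ⟨w, h1, hm', hu⟩
  · by_cases ho : o = some w
    · right; right; right; right
      exact ⟨w, ho, l, hl, hv⟩
    · right; right; right; left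
      have h1 : om w = true := by
        simp only [pls, Bool.or_eq_true, decide_eq_true_eq] at hw
        exact hw.resolve_right ho
      rw [rem_pls o om w ho] at hu
      exact ⟨w, h1, l, hl, hv, y, hy, hu⟩

/-- number of walks meeting a set -/
theorem meets_card {p r : ℝ} (hr : ∀ u, p * ((univ.filter fun w : C.Wk T => w.has u).card : ℝ) ≤ 2 * r)
    (hp : 0 ≤ p) (U : Finset V) :
    p * ((univ.filter fun w : C.Wk T => w.meets U).card : ℝ) ≤ U.card * (2 * r) := by
  have h1 : (univ.filter fun w : C.Wk T => w.meets U) ⊆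
      U.biUnion fun u => univ.filter fun w : C.Wk T => w.has u := by
    intro w hw
    obtain ⟨_, i, hi, hU⟩ := Finset.mem_filter.1 hw
    rw [Finset.mem_biUnion]
    exact ⟨_, hU, Finset.mem_filter.2 ⟨Finset.mem_univ _, i, hi, rfl⟩⟩
  have h2 : ((univ.filter fun w : C.Wk T => w.meets U).card : ℝ) ≤
      ∑ u ∈ U, ((univ.filter fun w : C.Wk T => w.has u).card : ℝ) := by
    exact_mod_cast (Finset.card_le_card h1).trans Finset.card_biUnion_le
  calc p * ((univ.filter fun w : C.Wk T => w.meets U).card : ℝ)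
      ≤ p * ∑ u ∈ U, ((univ.filter fun w : C.Wk T => w.has u).card : ℝ) :=
        mul_le_mul_of_nonneg_left h2 hp
    _ = ∑ u ∈ U, p * ((univ.filter fun w : C.Wk T => w.has u).card : ℝ) := Finset.mul_sum _ _ _
    _ ≤ ∑ _u ∈ U, 2 * r := Finset.sum_le_sum fun u _ => hr u
    _ = U.card * (2 * r) := by rw [Finset.sum_const, nsmul_eq_mul]

theorem head_card {p r : ℝ} (hr : ∀ u, p * ((univ.filter fun w : C.Wk T => w.has u).card : ℝ) ≤ 2 * r)
    (hp : 0 ≤ p) (hr0 : 0 ≤ r) (hinj : PInj C.f) (y : V) :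
    p * ((univ.filter fun w : C.Wk T => ∃ l, l < T ∧ w.hd l y).card : ℝ) ≤ 2 * r := by
  by_cases h : ∃ x, C.f x = some y
  · obtain ⟨x, hx⟩ := h
    refine le_trans (mul_le_mul_of_nonneg_left ?_ hp) (hr x)
    have h1 : (univ.filter fun w : C.Wk T => ∃ l, l < T ∧ w.hd l y) ⊆
        univ.filter fun w : C.Wk T => w.has x := by
      intro w hw
      obtain ⟨_, l, hl, hy⟩ := Finset.mem_filter.1 hw
      exact Finset.mem_filter.2 ⟨Finset.mem_univ _, l + 1, by omega, hinj _ _ _ hy hx⟩
    exact_mod_cast Finset.card_le_card h1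
  · have h1 : (univ.filter fun w : C.Wk T => ∃ l, l < T ∧ w.hd l y) = ∅ := by
      rw [Finset.filter_eq_empty_iff]
      rintro w _ ⟨l, hl, hy⟩
      exact h ⟨_, hy⟩
    rw [h1]
    simp only [Finset.card_empty, Nat.cast_zero, mul_zero]
    linarith

theorem tail_le_head (hinj : PInj C.f) (w : C.Wk T) (Q : V → Prop) (A B : Finset V)
    (hA : ∀ v ∈ A, ∃ l, l < T ∧ w.n l = v ∧ ∃ y, w.hd l y ∧ Q y)
    (hB : ∀ y, (∃ l, l < T ∧ w.hd l y) → Q y → y ∈ B) : A.card ≤ B.card := by
  have h1 : A ⊆ B.image fun y => if h : ∃ l, l < T ∧ w.hd l y then w.n h.choose else y := by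
    intro v hv
    obtain ⟨l, hl, hv, y, hy, hQ⟩ := hA v hv
    rw [Finset.mem_image]
    have hex : ∃ l, l < T ∧ w.hd l y := ⟨l, hl, hy⟩
    refine ⟨y, hB y hex hQ, ?_⟩
    rw [dif_pos hex]
    obtain ⟨h1, h2⟩ := hex.choose_spec
    have h3 : w.n (hex.choose + 1) = w.n (l + 1) := hinj _ _ _ h2 hy
    have h4 := n_inj w (by omega) (by omega) h3
    have h5 : hex.choose = l := by omega
    rw [h5, hv]
  exact (Finset.card_le_card h1).trans Finset.card_image_le

theorem meck {p : ℝ} (h0 : 0 ≤ p) (h1 : p ≤ 1 / 2) (F : C.Wk T → (C.Wk T → Bool) → ℝ)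
    (hF : ∀ w om, 0 ≤ F w om) :
    C.E T p (fun om => ∑ w, if om w = true then F w (rem om w) else 0) ≤
      2 * C.E T p (fun om => ∑ w, p * F w om) := by
  have hq : IsProb (W := C.Wk T) (α := fun _ => Bool) (qq p) := qq_prob h0 (by linarith)
  have h2 := mecke_le (W := C.Wk T) (q := qq p) hq (fun w => by simpa [qq] using h1) F hF
  refine le_trans h2 (mul_le_mul_of_nonneg_left ?_ (by norm_num))
  refine Ex_mono hq fun om => Finset.sum_le_sum fun w _ => ?_
  have h3 : (qq p w true : ℝ) = p := by simp [qq]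
  rw [h3]
  refine mul_le_mul_of_nonneg_left ?_ h0
  split_ifs
  · exact le_rfl
  · exact hF w om

theorem Emult {p r : ℝ} (h0 : 0 ≤ p) (h1 : p ≤ 1)
    (hr : ∀ u, p * ((univ.filter fun w : C.Wk T => w.has u).card : ℝ) ≤ 2 * r) (u : V) :
    C.E T p (fun om => (mult om u : ℝ)) ≤ 2 * r := by
  have hq : IsProb (W := C.Wk T) (α := fun _ => Bool) (qq p) := qq_prob h0 h1
  have h2 : (fun om : C.Wk T → Bool => (mult om u : ℝ)) =
      fun om => ∑ w ∈ univ.filter (fun w : C.Wk T => w.has u),
        (if om w = true then (1 : ℝ) else 0) := by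
    funext om
    unfold mult
    rw [Finset.card_filter, Finset.sum_filter]
    push_cast
    refine Finset.sum_congr rfl fun w _ => ?_
    by_cases ha : w.has u <;> by_cases hb : om w = true <;> simp [ha, hb]
  unfold Cl.E
  rw [h2, Ex_sum]
  refine le_trans (le_of_eq ?_) (hr u)
  have h3 : ∀ w ∈ univ.filter (fun w : C.Wk T => w.has u),
      Ex (α := fun _ : C.Wk T => Bool) (qq p) (fun om => if om w = true then (1 : ℝ) else 0) = p := by
    intro w _
    have := Ex_coord (α := fun _ : C.Wk T => Bool) hq w true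
    rw [this]
    simp [qq]
  rw [Finset.sum_congr rfl h3, Finset.sum_const, nsmul_eq_mul, mul_comm]


/-- expected number of vertices which read `u`, small reading sets -/
theorem E_rd {L : ℕ} (hR : Rds C T L) {p r : ℝ} (h0 : 0 ≤ p) (h1 : p ≤ 1)
    (hr : ∀ u, p * ((univ.filter fun w : C.Wk T => w.has u).card : ℝ) ≤ 2 * r) (h2r : 2 * r ≤ 1)
    (o : Option (C.Wk T)) (u : V) :
    C.E T p (fun om => ((univ.filter fun v => u ∈ rd L (pls o om) v).card : ℝ)) ≤
      8 * ((L : ℝ) + 1) := by
  have hq : IsProb (W := C.Wk T) (α := fun _ => Bool) (qq p) := qq_prob h0 h1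
  have h3 : ∀ om : C.Wk T → Bool, ((univ.filter fun v => u ∈ rd L (pls o om) v).card : ℝ) ≤
      2 * ((L : ℝ) + 1) * 3 + 2 * ((L : ℝ) + 1) * (mult om u : ℝ) := by
    intro om
    have h4 := hR.rev (pls o om) u
    have h5 := mult_pls_le o om u
    have h6 : (univ.filter fun v => u ∈ rd L (pls o om) v).card ≤
        2 * (L + 1) * (2 + (mult om u + 1)) :=
      h4.trans (Nat.mul_le_mul_left _ (Nat.add_le_add_left h5 _))
    have h7 : ((univ.filter fun v => u ∈ rd L (pls o om) v).card : ℝ) ≤
        2 * ((L : ℝ) + 1) * (2 + ((mult om u : ℝ) + 1)) := by exact_mod_cast h6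
    refine h7.trans (le_of_eq ?_)
    ring
  have hL : (0 : ℝ) ≤ L := Nat.cast_nonneg _
  calc C.E T p (fun om => ((univ.filter fun v => u ∈ rd L (pls o om) v).card : ℝ))
      ≤ C.E T p (fun om => 2 * ((L : ℝ) + 1) * 3 + 2 * ((L : ℝ) + 1) * (mult om u : ℝ)) :=
        Ex_mono hq h3
    _ = 2 * ((L : ℝ) + 1) * 3 + 2 * ((L : ℝ) + 1) * C.E T p (fun om => (mult om u : ℝ)) := by
        unfold Cl.E
        rw [Ex_add, Ex_const hq, Ex_const_mul]
    _ ≤ 2 * ((L : ℝ) + 1) * 3 + 2 * ((L : ℝ) + 1) * 1 := by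
        refine add_le_add le_rfl (mul_le_mul_of_nonneg_left ?_ (by positivity))
        exact (Emult h0 h1 hr u).trans h2r
    _ = 8 * ((L : ℝ) + 1) := by ring

/-- second part -/
theorem E_two {L : ℕ} (hR : Rds C T L) {p r : ℝ} (h0 : 0 ≤ p) (h1 : p ≤ 1 / 2)
    (hr : ∀ u, p * ((univ.filter fun w : C.Wk T => w.has u).card : ℝ) ≤ 2 * r) (h2r : 2 * r ≤ 1)
    (o : Option (C.Wk T)) (u : V) :
    C.E T p (fun om => ((univ.filter fun v => ∃ w, om w = true ∧
      w.meets (rd L (pls o (rem om w)) v) ∧ u ∈ rd L (pls o (rem om w)) v).card : ℝ)) ≤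
      16 * ((L : ℝ) + 1) * (4 * ((L : ℝ) + 1) + 1) := by
  have hq : IsProb (W := C.Wk T) (α := fun _ => Bool) (qq p) := qq_prob h0 (by linarith)
  have hL : (0 : ℝ) ≤ L := Nat.cast_nonneg _
  set F : C.Wk T → (C.Wk T → Bool) → ℝ := fun w om =>
    ((univ.filter fun v => w.meets (rd L (pls o om) v) ∧ u ∈ rd L (pls o om) v).card : ℝ) with hF
  have h2 : ∀ om : C.Wk T → Bool, ((univ.filter fun v => ∃ w, om w = true ∧
      w.meets (rd L (pls o (rem om w)) v) ∧ u ∈ rd L (pls o (rem om w)) v).card : ℝ) ≤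
      ∑ w, if om w = true then F w (rem om w) else 0 := by
    intro om
    have h3 : (univ.filter fun v => ∃ w, om w = true ∧
        w.meets (rd L (pls o (rem om w)) v) ∧ u ∈ rd L (pls o (rem om w)) v) ⊆
        (univ.filter fun w => om w = true).biUnion fun w => univ.filter fun v =>
          w.meets (rd L (pls o (rem om w)) v) ∧ u ∈ rd L (pls o (rem om w)) v := by
      intro v hv
      obtain ⟨_, w, hw, hm⟩ := Finset.mem_filter.1 hv
      rw [Finset.mem_biUnion]
      exact ⟨w, Finset.mem_filter.2 ⟨Finset.mem_univ _, hw⟩,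
        Finset.mem_filter.2 ⟨Finset.mem_univ _, hm⟩⟩
    have h4 := (Finset.card_le_card h3).trans Finset.card_biUnion_le
    rw [← Finset.sum_filter]
    have h5 : ((univ.filter fun v => ∃ w, om w = true ∧
        w.meets (rd L (pls o (rem om w)) v) ∧ u ∈ rd L (pls o (rem om w)) v).card : ℝ) ≤
        ∑ w ∈ univ.filter (fun w : C.Wk T => om w = true), ((univ.filter fun v =>
          w.meets (rd L (pls o (rem om w)) v) ∧ u ∈ rd L (pls o (rem om w)) v).card : ℝ) := by
      rw [← Nat.cast_sum]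
      exact Nat.cast_le.2 h4
    exact h5
  have h5 : ∀ om : C.Wk T → Bool, ∑ w, p * F w om ≤
      (4 * ((L : ℝ) + 1) + 1) * ((univ.filter fun v => u ∈ rd L (pls o om) v).card : ℝ) := by
    intro om
    have h6 : ∀ w : C.Wk T, F w om = ∑ v ∈ univ.filter (fun v => u ∈ rd L (pls o om) v),
        if w.meets (rd L (pls o om) v) then (1 : ℝ) else 0 := by
      intro w
      rw [hF]
      simp only
      rw [Finset.card_filter, Finset.sum_filter]
      push_cast
      refine Finset.sum_congr rfl fun v _ => ?_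
      by_cases ha : w.meets (rd L (pls o om) v) <;> by_cases hb : u ∈ rd L (pls o om) v <;>
        simp [ha, hb]
    calc ∑ w, p * F w om
        = ∑ v ∈ univ.filter (fun v => u ∈ rd L (pls o om) v),
          p * ((univ.filter fun w : C.Wk T => w.meets (rd L (pls o om) v)).card : ℝ) := by
          simp only [h6, Finset.mul_sum]
          rw [Finset.sum_comm]
          refine Finset.sum_congr rfl fun v _ => ?_
          rw [← Finset.mul_sum, Finset.card_filter]
          push_cast
          rfl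
      _ ≤ ∑ v ∈ univ.filter (fun v => u ∈ rd L (pls o om) v), (4 * ((L : ℝ) + 1) + 1) := by
          refine Finset.sum_le_sum fun v _ => ?_
          refine (meets_card hr h0 _).trans ?_
          have h7 : ((rd L (pls o om) v).card : ℝ) ≤ 4 * ((L : ℝ) + 1) + 1 := by
            exact_mod_cast hR.card (pls o om) v
          calc ((rd L (pls o om) v).card : ℝ) * (2 * r) ≤ ((rd L (pls o om) v).card : ℝ) * 1 :=
                mul_le_mul_of_nonneg_left h2r (Nat.cast_nonneg _)
            _ ≤ _ := by rw [mul_one]; exact h7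
      _ = _ := by rw [Finset.sum_const, nsmul_eq_mul, mul_comm]
  calc _ ≤ C.E T p (fun om => ∑ w, if om w = true then F w (rem om w) else 0) :=
        Ex_mono hq h2
    _ ≤ 2 * C.E T p (fun om => ∑ w, p * F w om) :=
        meck h0 h1 F (fun w om => Nat.cast_nonneg _)
    _ ≤ 2 * C.E T p (fun om => (4 * ((L : ℝ) + 1) + 1) *
          ((univ.filter fun v => u ∈ rd L (pls o om) v).card : ℝ)) :=
        mul_le_mul_of_nonneg_left (Ex_mono hq h5) (by norm_num)
    _ = 2 * ((4 * ((L : ℝ) + 1) + 1) *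
          C.E T p (fun om => ((univ.filter fun v => u ∈ rd L (pls o om) v).card : ℝ))) := by
        unfold Cl.E
        rw [Ex_const_mul]
    _ ≤ 2 * ((4 * ((L : ℝ) + 1) + 1) * (8 * ((L : ℝ) + 1))) := by
        refine mul_le_mul_of_nonneg_left (mul_le_mul_of_nonneg_left ?_ (by positivity))
          (by norm_num)
        exact E_rd hR h0 (by linarith) hr h2r o u
    _ = _ := by ring

/-- third part -/
theorem E_three {L : ℕ} (hR : Rds C T L) (hinj : PInj C.f) {p r : ℝ} (h0 : 0 ≤ p)
    (h1 : p ≤ 1 / 2) (hr0 : 0 ≤ r)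
    (hr : ∀ u, p * ((univ.filter fun w : C.Wk T => w.has u).card : ℝ) ≤ 2 * r) (h2r : 2 * r ≤ 1)
    (o : Option (C.Wk T)) (u : V) :
    C.E T p (fun om => ((univ.filter fun v => ∃ w, om w = true ∧ ∃ l, l < T ∧ w.n l = v ∧
      ∃ y, w.hd l y ∧ u ∈ rd L (pls o (rem om w)) y).card : ℝ)) ≤
      16 * ((L : ℝ) + 1) := by
  have hq : IsProb (W := C.Wk T) (α := fun _ => Bool) (qq p) := qq_prob h0 (by linarith)
  have hL : (0 : ℝ) ≤ L := Nat.cast_nonneg _
  set F : C.Wk T → (C.Wk T → Bool) → ℝ := fun w om =>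
    ((univ.filter fun y => (∃ l, l < T ∧ w.hd l y) ∧ u ∈ rd L (pls o om) y).card : ℝ) with hF
  have h2 : ∀ om : C.Wk T → Bool, ((univ.filter fun v => ∃ w, om w = true ∧ ∃ l, l < T ∧
      w.n l = v ∧ ∃ y, w.hd l y ∧ u ∈ rd L (pls o (rem om w)) y).card : ℝ) ≤
      ∑ w, if om w = true then F w (rem om w) else 0 := by
    intro om
    have h3 : (univ.filter fun v => ∃ w, om w = true ∧ ∃ l, l < T ∧
        w.n l = v ∧ ∃ y, w.hd l y ∧ u ∈ rd L (pls o (rem om w)) y) ⊆
        (univ.filter fun w => om w = true).biUnion fun w => univ.filter fun v =>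
          ∃ l, l < T ∧ w.n l = v ∧ ∃ y, w.hd l y ∧ u ∈ rd L (pls o (rem om w)) y := by
      intro v hv
      obtain ⟨_, w, hw, hm⟩ := Finset.mem_filter.1 hv
      rw [Finset.mem_biUnion]
      exact ⟨w, Finset.mem_filter.2 ⟨Finset.mem_univ _, hw⟩,
        Finset.mem_filter.2 ⟨Finset.mem_univ _, hm⟩⟩
    have h4 := (Finset.card_le_card h3).trans Finset.card_biUnion_le
    rw [← Finset.sum_filter]
    have h5 : ∑ w ∈ univ.filter (fun w : C.Wk T => om w = true), (univ.filter fun v =>
        ∃ l, l < T ∧ w.n l = v ∧ ∃ y, w.hd l y ∧ u ∈ rd L (pls o (rem om w)) y).card ≤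
        ∑ w ∈ univ.filter (fun w : C.Wk T => om w = true), (univ.filter fun y =>
          (∃ l, l < T ∧ w.hd l y) ∧ u ∈ rd L (pls o (rem om w)) y).card :=
      Finset.sum_le_sum fun w _ => tail_le_head hinj w (fun y => u ∈ rd L (pls o (rem om w)) y)
        _ _ (fun v hv => (Finset.mem_filter.1 hv).2)
        (fun y hy hQ => Finset.mem_filter.2 ⟨Finset.mem_univ _, hy, hQ⟩)
    have h6 : ((univ.filter fun v => ∃ w, om w = true ∧ ∃ l, l < T ∧
        w.n l = v ∧ ∃ y, w.hd l y ∧ u ∈ rd L (pls o (rem om w)) y).card : ℝ) ≤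
        ∑ w ∈ univ.filter (fun w : C.Wk T => om w = true), ((univ.filter fun y =>
          (∃ l, l < T ∧ w.hd l y) ∧ u ∈ rd L (pls o (rem om w)) y).card : ℝ) := by
      rw [← Nat.cast_sum]
      exact Nat.cast_le.2 (h4.trans h5)
    exact h6
  have h5 : ∀ om : C.Wk T → Bool, ∑ w, p * F w om ≤
      1 * ((univ.filter fun v => u ∈ rd L (pls o om) v).card : ℝ) := by
    intro om
    have h6 : ∀ w : C.Wk T, F w om = ∑ y ∈ univ.filter (fun y => u ∈ rd L (pls o om) y),
        if (∃ l, l < T ∧ w.hd l y) then (1 : ℝ) else 0 := by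
      intro w
      rw [hF]
      simp only
      rw [Finset.card_filter, Finset.sum_filter]
      push_cast
      refine Finset.sum_congr rfl fun v _ => ?_
      by_cases ha : (∃ l, l < T ∧ w.hd l v) <;> by_cases hb : u ∈ rd L (pls o om) v <;>
        simp [ha, hb]
    calc ∑ w, p * F w om
        = ∑ y ∈ univ.filter (fun y => u ∈ rd L (pls o om) y),
          p * ((univ.filter fun w : C.Wk T => ∃ l, l < T ∧ w.hd l y).card : ℝ) := by
          simp only [h6, Finset.mul_sum]
          rw [Finset.sum_comm]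
          refine Finset.sum_congr rfl fun v _ => ?_
          rw [← Finset.mul_sum, Finset.card_filter]
          push_cast
          rfl
      _ ≤ ∑ y ∈ univ.filter (fun y => u ∈ rd L (pls o om) y), (1 : ℝ) := by
          refine Finset.sum_le_sum fun y _ => ?_
          exact (head_card hr h0 hr0 hinj y).trans h2r
      _ = _ := by rw [Finset.sum_const, nsmul_eq_mul, mul_comm]
  calc _ ≤ C.E T p (fun om => ∑ w, if om w = true then F w (rem om w) else 0) :=
        Ex_mono hq h2
    _ ≤ 2 * C.E T p (fun om => ∑ w, p * F w om) :=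
        meck h0 h1 F (fun w om => Nat.cast_nonneg _)
    _ ≤ 2 * C.E T p (fun om => 1 *
          ((univ.filter fun v => u ∈ rd L (pls o om) v).card : ℝ)) :=
        mul_le_mul_of_nonneg_left (Ex_mono hq h5) (by norm_num)
    _ = 2 * (1 *
          C.E T p (fun om => ((univ.filter fun v => u ∈ rd L (pls o om) v).card : ℝ))) := by
        unfold Cl.E
        rw [Ex_const_mul]
    _ ≤ 2 * (1 * (8 * ((L : ℝ) + 1))) := by
        refine mul_le_mul_of_nonneg_left (mul_le_mul_of_nonneg_left ?_ (by positivity))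
          (by norm_num)
        exact E_rd hR h0 (by linarith) hr h2r o u
    _ = _ := by ring

/-- all parts -/
theorem E_nod {L : ℕ} (hR : Rds C T L) (hinj : PInj C.f) {p r : ℝ} (h0 : 0 ≤ p)
    (h1 : p ≤ 1 / 2) (hr0 : 0 ≤ r) (hL1 : 1 ≤ L) (hTL : T ≤ L)
    (hr : ∀ u, p * ((univ.filter fun w : C.Wk T => w.has u).card : ℝ) ≤ 2 * r) (h2r : 2 * r ≤ 1)
    (o : Option (C.Wk T)) (u : V) :
    C.E T p (fun om => ((univ.filter fun v => u ∈ nod L (pls o om) v).card : ℝ)) ≤
      200 * ((L : ℝ) + 1) ^ 2 := by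
  have hq : IsProb (W := C.Wk T) (α := fun _ => Bool) (qq p) := qq_prob h0 (by linarith)
  have hL : (1 : ℝ) ≤ L := by exact_mod_cast hL1
  have hTL' : (T : ℝ) ≤ L := by exact_mod_cast hTL
  have h2 : ∀ om : C.Wk T → Bool, ((univ.filter fun v => u ∈ nod L (pls o om) v).card : ℝ) ≤
      ((univ.filter fun v => u ∈ rd L (pls o om) v).card : ℝ) +
      (((univ.filter fun v => ∃ w, om w = true ∧
        w.meets (rd L (pls o (rem om w)) v) ∧ u ∈ rd L (pls o (rem om w)) v).card : ℝ) +
      ((2 * ((L : ℝ) + 1) * 2 + 2 * ((L : ℝ) + 1) * (mult om u : ℝ)) +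
      (((univ.filter fun v => ∃ w, om w = true ∧ ∃ l, l < T ∧ w.n l = v ∧
        ∃ y, w.hd l y ∧ u ∈ rd L (pls o (rem om w)) y).card : ℝ) + L))) := by
    intro om
    have h3 : (univ.filter fun v => u ∈ nod L (pls o om) v) ⊆
        (univ.filter fun v => u ∈ rd L (pls o om) v) ∪
        ((univ.filter fun v => ∃ w, om w = true ∧
          w.meets (rd L (pls o (rem om w)) v) ∧ u ∈ rd L (pls o (rem om w)) v) ∪
        ((univ.filter fun v => ∃ w₀, o = some w₀ ∧ u ∈ rd L (rem om w₀) v) ∪
        ((univ.filter fun v => ∃ w, om w = true ∧ ∃ l, l < T ∧ w.n l = v ∧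
          ∃ y, w.hd l y ∧ u ∈ rd L (pls o (rem om w)) y) ∪
        (univ.filter fun v => ∃ w₀, o = some w₀ ∧ ∃ l, l < T ∧ w₀.n l = v)))) := by
      intro v hv
      obtain ⟨_, hv⟩ := Finset.mem_filter.1 hv
      simp only [Finset.mem_union, Finset.mem_filter, Finset.mem_univ, true_and]
      exact nod_pls hR hv
    have h4 : (univ.filter fun v => ∃ w₀, o = some w₀ ∧ u ∈ rd L (rem om w₀) v).card ≤
        2 * (L + 1) * (2 + mult om u) := by
      cases o with
      | none => simp
      | some w₀ =>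
        refine le_trans (Finset.card_le_card ?_) ((hR.rev (rem om w₀) u).trans
          (Nat.mul_le_mul_left _ (Nat.add_le_add_left (mult_rem_le om w₀ u) _)))
        intro v hv
        obtain ⟨_, w₁, h5, h6⟩ := Finset.mem_filter.1 hv
        rw [Option.some.inj h5]
        exact Finset.mem_filter.2 ⟨Finset.mem_univ _, h6⟩
    have h5 : (univ.filter fun v => ∃ w₀, o = some w₀ ∧ ∃ l, l < T ∧ w₀.n l = v).card ≤ T := by
      cases o with
      | none => simp
      | some w₀ =>
        have h6 : (univ.filter fun v => ∃ w₁, some w₀ = some w₁ ∧ ∃ l, l < T ∧ w₁.n l = v) ⊆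
            (range T).image fun l => w₀.n l := by
          intro v hv
          obtain ⟨_, w₁, h5, l, hl, h6⟩ := Finset.mem_filter.1 hv
          rw [Finset.mem_image]
          rw [← Option.some.inj h5] at h6
          exact ⟨l, Finset.mem_range.2 hl, h6⟩
        refine (Finset.card_le_card h6).trans (Finset.card_image_le.trans ?_)
        rw [Finset.card_range]
    have h6 := (Finset.card_le_card h3).trans ((Finset.card_union_le _ _).trans
      (Nat.add_le_add_left ((Finset.card_union_le _ _).trans (Nat.add_le_add_left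
      ((Finset.card_union_le _ _).trans (Nat.add_le_add h4 ((Finset.card_union_le _ _).trans
      (Nat.add_le_add_left h5 _)))) _)) _))
    have h7 : ((univ.filter fun v => u ∈ nod L (pls o om) v).card : ℝ) ≤
        ((univ.filter fun v => u ∈ rd L (pls o om) v).card : ℝ) +
        (((univ.filter fun v => ∃ w, om w = true ∧
          w.meets (rd L (pls o (rem om w)) v) ∧ u ∈ rd L (pls o (rem om w)) v).card : ℝ) +
        ((2 * ((L : ℝ) + 1) * (2 + (mult om u : ℝ))) +
        (((univ.filter fun v => ∃ w, om w = true ∧ ∃ l, l < T ∧ w.n l = v ∧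
          ∃ y, w.hd l y ∧ u ∈ rd L (pls o (rem om w)) y).card : ℝ) + T))) := by
      exact_mod_cast h6
    linarith
  refine (Ex_mono hq h2).trans ?_
  rw [Ex_add, Ex_add, Ex_add, Ex_add, Ex_add, Ex_const hq, Ex_const hq, Ex_const_mul]
  have e1 := E_rd hR h0 (by linarith) hr h2r o u
  have e2 := E_two hR h0 h1 hr h2r o u
  have e3 := E_three hR hinj h0 h1 hr0 hr h2r o u
  have e4 := Emult h0 (by linarith) hr u
  unfold Cl.E at e1 e2 e3 e4
  have e5 : 2 * ((L : ℝ) + 1) * Ex (α := fun _ : C.Wk T => Bool) (qq p)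
      (fun om => (mult om u : ℝ)) ≤ 2 * ((L : ℝ) + 1) * 1 :=
    mul_le_mul_of_nonneg_left (e4.trans h2r) (by linarith)
  nlinarith

/-- RCT -/
theorem rct (hW : WPCStmt) (hRD : RDSStmt) : RCTStmt := by
  intro V _ C d T p z r L hP hL hTL u
  have hR := hRD V C d T L hP.ok hL
  have hr := (hW V C d T p z r hP).2.1
  have hp0 : 0 ≤ p := hP.p0.le
  have hp1 : p ≤ 1 / 2 := hP.ph
  have hT0 : (0 : ℝ) ≤ T := Nat.cast_nonneg _
  have hr0 : 0 ≤ r := by
    rw [← hP.zr]
    exact mul_nonneg (by linarith) hP.z0.le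
  have hq : IsProb (W := C.Wk T) (α := fun _ => Bool) (qq p) := qq_prob hp0 (by linarith)
  have hmain : ∀ (o : Option (C.Wk T)) u, C.E T p (fun om =>
      ((univ.filter fun v => u ∈ nod L (pls o om) v).card : ℝ)) ≤ 200 * ((L : ℝ) + 1) ^ 2 :=
    fun o u => E_nod hR hP.ok.inj hp0 hp1 hr0 hL hTL hr hP.r1 o u
  have hins : ∀ (w : C.Wk T) u, C.E T p (fun om =>
      ((univ.filter fun v => u ∈ nod L (ins om w) v).card : ℝ)) ≤ 200 * ((L : ℝ) + 1) ^ 2 := by
    intro w u
    have h1 := hmain (some w) u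
    simp only [pls_some] at h1
    exact h1
  refine ⟨?_, fun w => hins w u, ?_⟩
  · have h1 := hmain none u
    simp only [pls_none] at h1
    exact h1
  · set F : C.Wk T → (C.Wk T → Bool) → ℝ := fun w om =>
      if w.has u then ∑ i ∈ range (T + 1),
        ((univ.filter fun v => w.n i ∈ nod L (ins om w) v).card : ℝ) else 0 with hF
    have h2 : ∀ om : C.Wk T → Bool, ((univ.filter fun v => ∃ w : C.Wk T, om w = true ∧
        w.has u ∧ w.meets (nod L om v)).card : ℝ) ≤
        ∑ w, if om w = true then F w (rem om w) else 0 := by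
      intro om
      have h3 : (univ.filter fun v => ∃ w : C.Wk T, om w = true ∧ w.has u ∧
          w.meets (nod L om v)) ⊆ (univ.filter fun w : C.Wk T => om w = true).biUnion fun w =>
            if w.has u then ((range (T + 1)).biUnion fun i => univ.filter fun v =>
              w.n i ∈ nod L (ins (rem om w) w) v) else ∅ := by
        intro v hv
        obtain ⟨_, w, hw, hu, i, hi, hm⟩ := Finset.mem_filter.1 hv
        rw [Finset.mem_biUnion]
        refine ⟨w, Finset.mem_filter.2 ⟨Finset.mem_univ _, hw⟩, ?_⟩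
        rw [if_pos hu, Finset.mem_biUnion]
        refine ⟨i, Finset.mem_range.2 (by omega), Finset.mem_filter.2 ⟨Finset.mem_univ _, ?_⟩⟩
        rw [ins_rem, ins_self om w hw]
        exact hm
      have h4 : ((univ.filter fun v => ∃ w : C.Wk T, om w = true ∧ w.has u ∧
          w.meets (nod L om v)).card : ℝ) ≤ ∑ w ∈ univ.filter (fun w : C.Wk T => om w = true),
          (((if w.has u then ((range (T + 1)).biUnion fun i => univ.filter fun v =>
              w.n i ∈ nod L (ins (rem om w) w) v) else ∅ : Finset V)).card : ℝ) := by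
        exact_mod_cast (Finset.card_le_card h3).trans Finset.card_biUnion_le
      rw [← Finset.sum_filter]
      refine h4.trans (Finset.sum_le_sum fun w _ => ?_)
      rw [hF]
      simp only
      split_ifs with h5
      · exact_mod_cast Finset.card_biUnion_le
      · simp
    refine (Ex_mono hq h2).trans ?_
    have h3 := mecke (W := C.Wk T) (q := qq p) hq F
    unfold Cl.rem
    rw [h3]
    have h4 : ∀ w : C.Wk T, (qq p w true : ℝ) * Ex (α := fun _ : C.Wk T => Bool) (qq p)
        (fun om => F w (Function.update om w false)) ≤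
        if w.has u then p * (((T : ℝ) + 1) * (200 * ((L : ℝ) + 1) ^ 2)) else 0 := by
      intro w
      have h5 : (qq p w true : ℝ) = p := by simp [qq]
      rw [h5]
      have h6 : ∀ om : C.Wk T → Bool, F w (Function.update om w false) = if w.has u then
          ∑ i ∈ range (T + 1), ((univ.filter fun v => w.n i ∈ nod L (ins om w) v).card : ℝ)
          else 0 := by
        intro om
        rw [hF]
        simp only
        have h7 : ins (Function.update om w false) w = ins om w := ins_rem om w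
        rw [h7]
      simp only [h6]
      split_ifs with h7
      · refine mul_le_mul_of_nonneg_left ?_ hp0
        rw [Ex_sum]
        refine (Finset.sum_le_sum fun i _ => hins w (w.n i)).trans (le_of_eq ?_)
        rw [Finset.sum_const, Finset.card_range, nsmul_eq_mul]
        push_cast
        ring
      · rw [Ex_const hq, mul_zero]
    refine (Finset.sum_le_sum fun w _ => h4 w).trans ?_
    rw [← Finset.sum_filter, Finset.sum_const, nsmul_eq_mul]
    have hTL' : (T : ℝ) ≤ L := by exact_mod_cast hTL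
    have h5 := (hr u).trans hP.r1
    have h6 : (0 : ℝ) ≤ ((T : ℝ) + 1) * (200 * ((L : ℝ) + 1) ^ 2) := by positivity
    calc ((univ.filter fun w : C.Wk T => w.has u).card : ℝ) *
          (p * (((T : ℝ) + 1) * (200 * ((L : ℝ) + 1) ^ 2)))
        = (p * ((univ.filter fun w : C.Wk T => w.has u).card : ℝ)) *
          (((T : ℝ) + 1) * (200 * ((L : ℝ) + 1) ^ 2)) := by ring
      _ ≤ 1 * (((T : ℝ) + 1) * (200 * ((L : ℝ) + 1) ^ 2)) := mul_le_mul_of_nonneg_right h5 h6
      _ ≤ 1 * (((L : ℝ) + 1) * (200 * ((L : ℝ) + 1) ^ 2)) := by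
          refine mul_le_mul_of_nonneg_left (mul_le_mul_of_nonneg_right (by linarith) ?_)
            (by norm_num)
          positivity
      _ ≤ 400 * ((L : ℝ) + 1) ^ 3 := by
          have : (0 : ℝ) ≤ ((L : ℝ) + 1) ^ 3 := by positivity
          nlinarith

end Pool.Agent.C4K.H58
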